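import Pool.Agent.helper4.GA.Spec

set_option autoImplicit false

open Finset
open Pool.Agent.helper32.Cant

namespace Pool.Agent.GA

theorem FP2 : FP2_stmt := by
  intro n m e hm hn he0 he
  set y : ℝ := 3 ^ m with hy
  have hy81 : (81 : ℝ) ≤ y := by
    have h1 : (3 : ℝ) ^ 4 ≤ 3 ^ m := pow_le_pow_right₀ (by norm_num) hm
    norm_num at h1
    exact h1
  have hy0 : 0 < y := by linarith
  have hy1 : 1 ≤ y := by linarith
  have hp : ∀ k : ℕ, (3 : ℝ) ^ (k * m) = y ^ k := fun k => by rw [hy, ← pow_mul, mul_comm]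
  have hp9 : (9 : ℝ) ^ (30 * m) = y ^ 60 := by
    have h9 : (9 : ℝ) = 3 ^ 2 := by norm_num
    rw [h9, ← pow_mul, hy, ← pow_mul]
    congr 1
    ring
  have hny : (n : ℝ) ≤ y := by
    rw [hy]
    exact_mod_cast hn
  have hn0 : (0 : ℝ) ≤ n := Nat.cast_nonneg n
  rw [hp] at he
  rw [hp, hp, hp]
  unfold kap
  rw [hp9, hp]
  have hden : ∀ k l : ℕ, k ≤ l → (1 : ℝ) / y ^ l ≤ 1 / y ^ k := fun k l h =>
    one_div_le_one_div_of_le (pow_pos hy0 _) (pow_le_pow_right₀ hy1 h)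
  have t1 : 81 * (n : ℝ) ^ 3 / y ^ 60 ≤ 81 * (1 / y ^ 28) := by
    have h1 : (n : ℝ) ^ 3 ≤ y ^ 3 := pow_le_pow_left₀ hn0 hny 3
    calc 81 * (n : ℝ) ^ 3 / y ^ 60 ≤ 81 * y ^ 3 / y ^ 60 := by gcongr
      _ = 81 * (1 / y ^ 57) := by
          field_simp
      _ ≤ 81 * (1 / y ^ 28) := by linarith [hden 28 57 (by norm_num)]
  have t2 : 2448 * (n : ℝ) ^ 2 / y ^ 30 ≤ 2448 * (1 / y ^ 28) := by
    have h1 : (n : ℝ) ^ 2 ≤ y ^ 2 := pow_le_pow_left₀ hn0 hny 2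
    calc 2448 * (n : ℝ) ^ 2 / y ^ 30 ≤ 2448 * y ^ 2 / y ^ 30 := by gcongr
      _ = 2448 * (1 / y ^ 28) := by
          field_simp
  have t3 : 144 * e * y ^ 90 ≤ 144 * (1 / y ^ 28) := by
    have h1 : e * y ^ 90 ≤ 1 / y ^ 31 := by
      calc e * y ^ 90 ≤ 1 / y ^ 121 * y ^ 90 := by gcongr
        _ = 1 / y ^ 31 := by field_simp
    have h2 := hden 28 31 (by norm_num)
    linarith
  have t4 : 18 * y ^ 60 / y ^ 90 ≤ 18 * (1 / y ^ 28) := by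
    have h1 : 18 * y ^ 60 / y ^ 90 = 18 * (1 / y ^ 30) := by field_simp
    rw [h1]
    linarith [hden 28 30 (by norm_num)]
  have hk : 81 * (n : ℝ) ^ 3 / y ^ 60 + 2448 * (n : ℝ) ^ 2 / y ^ 30 + 144 * e * y ^ 90 +
      18 * y ^ 60 / y ^ 90 ≤ (52 / y ^ 14) ^ 2 := by
    have h1 : (52 / y ^ 14) ^ 2 = 2704 * (1 / y ^ 28) := by
      rw [div_pow, ← pow_mul]
      norm_num
      ring
    rw [h1]
    have h2 : 0 < 1 / y ^ 28 := by positivity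
    linarith
  have hs : √(81 * (n : ℝ) ^ 3 / y ^ 60 + 2448 * (n : ℝ) ^ 2 / y ^ 30 + 144 * e * y ^ 90 +
      18 * y ^ 60 / y ^ 90) ≤ 52 / y ^ 14 := by
    rw [Real.sqrt_le_left (by positivity)]
    exact hk
  have h30 : 3 / y ^ 30 ≤ 3 * (1 / y ^ 14) := by
    have := hden 14 30 (by norm_num)
    have h1 : 3 / y ^ 30 = 3 * (1 / y ^ 30) := by ring
    rw [h1]
    linarith
  have hfin : 679 * (1 / y ^ 14) ≤ 1 / y ^ 12 := by
    have h1 : (1 : ℝ) / y ^ 12 = y ^ 2 * (1 / y ^ 14) := by field_simp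
    rw [h1]
    have h2 : (679 : ℝ) ≤ y ^ 2 := by nlinarith
    exact mul_le_mul_of_nonneg_right h2 (by positivity)
  have h52 : 52 / y ^ 14 = 52 * (1 / y ^ 14) := by ring
  rw [h52] at hs
  linarith

end Pool.Agent.GA
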