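import Pool.Agent.helper4.GA.Spec

set_option autoImplicit false

open Finset
open Pool.Agent.helper32.Cant

namespace Pool.Agent.GA

theorem TRE_ind_nonneg (p : Prop) : 0 ≤ ind p := by
  unfold ind
  split_ifs <;> norm_num

theorem TRE_ph (ζ : ℝ) (d r : ℕ) : ‖ph ζ d r‖ = 1 := by
  unfold ph
  rw [Complex.norm_exp]
  have h : (2 * Real.pi * Complex.I * (2 * ζ * r / 3 ^ d) : ℂ) =
      ((2 * Real.pi * (2 * ζ * r / 3 ^ d) : ℝ) : ℂ) * Complex.I := by
    push_cast
    ring
  rw [h, Complex.re_ofReal_mul, Complex.I_re, mul_zero, Real.exp_zero]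

theorem TRE_nc {X : Type} (n sh : ℕ) (R : X → ℕ) (w : X → ℝ) (a b : ℕ) (Y : Finset X)
    (hw : ∀ x, 0 < w x) : 0 ≤ nc n sh R w a b Y := by
  unfold nc
  refine div_nonneg ?_ (sq_nonneg _)
  exact sum_nonneg fun x _ => sum_nonneg fun y _ =>
    mul_nonneg (mul_nonneg (hw x).le (hw y).le) (TRE_ind_nonneg _)

/-- the functional is monotone and subadditive -/
theorem TRE_fun (S : Finset ℕ) (h N G : ℕ → ℝ) (e : ℕ → ℂ) (α : ℝ) (hα : 0 ≤ α)
    (he : ∀ r, ‖e r‖ = 1) (hG : ∀ r ∈ S, 0 ≤ G r) (hle : ∀ r ∈ S, h r ≤ α * N r + G r) :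
    (∑ r ∈ S, h r + ‖∑ r ∈ S, (h r : ℂ) * e r‖) / 2 ≤
      α * ((∑ r ∈ S, N r + ‖∑ r ∈ S, (N r : ℂ) * e r‖) / 2) + ∑ r ∈ S, G r := by
  have h1 : ‖∑ r ∈ S, (h r : ℂ) * e r‖ ≤ ‖∑ r ∈ S, ((α * N r + G r : ℝ) : ℂ) * e r‖ +
      ∑ r ∈ S, (α * N r + G r - h r) := by
    have h2 : ∑ r ∈ S, (h r : ℂ) * e r = ∑ r ∈ S, ((α * N r + G r : ℝ) : ℂ) * e r -
        ∑ r ∈ S, ((α * N r + G r - h r : ℝ) : ℂ) * e r := by
      rw [← sum_sub_distrib]
      refine sum_congr rfl fun r _ => ?_
      push_cast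
      ring
    rw [h2]
    refine (norm_sub_le _ _).trans (add_le_add (le_refl _) ?_)
    refine norm_sum_le_of_le _ fun r hr => ?_
    rw [norm_mul, he, mul_one, Complex.norm_real, Real.norm_eq_abs,
      abs_of_nonneg (by linarith [hle r hr])]
  have h3 : ‖∑ r ∈ S, ((α * N r + G r : ℝ) : ℂ) * e r‖ ≤
      α * ‖∑ r ∈ S, (N r : ℂ) * e r‖ + ∑ r ∈ S, G r := by
    have h2 : ∑ r ∈ S, ((α * N r + G r : ℝ) : ℂ) * e r =
        (α : ℂ) * ∑ r ∈ S, (N r : ℂ) * e r + ∑ r ∈ S, (G r : ℂ) * e r := by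
      rw [mul_sum, ← sum_add_distrib]
      refine sum_congr rfl fun r _ => ?_
      push_cast
      ring
    rw [h2]
    refine (norm_add_le _ _).trans (add_le_add ?_ ?_)
    · rw [norm_mul, Complex.norm_real, Real.norm_eq_abs, abs_of_nonneg hα]
    · refine norm_sum_le_of_le _ fun r hr => ?_
      rw [norm_mul, he, mul_one, Complex.norm_real, Real.norm_eq_abs, abs_of_nonneg (hG r hr)]
  have h4 : ∑ r ∈ S, (α * N r + G r - h r) = α * ∑ r ∈ S, N r + ∑ r ∈ S, G r - ∑ r ∈ S, h r := by
    rw [sum_sub_distrib, sum_add_distrib, mul_sum]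
  rw [h4] at h1
  linarith

theorem TRE (hPOT : POT_stmt) (hNOD : NOD_stmt) : TRE_stmt := by
  intro X n sh ζ η R w hz1 hz2 hη0 hη1 hw hR l
  induction l with
  | nil =>
    intro a r Y v _ _ _
    have hN : 0 ≤ ∑ x ∈ Y, w x := sum_nonneg fun x _ => (hw x).le
    have hs : 0 ≤ ∑ x ∈ Y, w x * ind (ncs n sh R w [a] Y x < v) :=
      sum_nonneg fun x _ => mul_nonneg (hw x).le (TRE_ind_nonneg _)
    have hp : pot n sh ζ η R w [a] Y = ∑ x ∈ Y, w x := by
      simp only [pot]
    rw [hp]
    rcases le_or_gt v 0 with hv | hv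
    · have h1 : (1 : ℝ) ≤ Real.exp (-(v / 60000)) := by
        rw [← Real.exp_zero]
        apply Real.exp_le_exp.mpr
        linarith
      nlinarith
    · have h2 : ∑ x ∈ Y, w x * ind (ncs n sh R w [a] Y x < v) = ∑ x ∈ Y, w x := by
        refine sum_congr rfl fun x _ => ?_
        have h3 : ncs n sh R w [a] Y x = 0 := by
          simp only [ncs]
        rw [h3]
        unfold ind
        rw [if_pos hv, mul_one]
      rw [h2]
      have h3 : 0 < Real.exp (-(v / 60000)) := Real.exp_pos _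
      have h4 : 0 ≤ (∑ x ∈ Y, w x) * (Real.exp (-(v / 60000)) + η) :=
        mul_nonneg hN (by linarith)
      linarith
  | cons b l ih =>
    intro a r Y v hch hle hY
    have hN : 0 ≤ ∑ x ∈ Y, w x := sum_nonneg fun x _ => (hw x).le
    have hs : 0 ≤ ∑ x ∈ Y, w x * ind (ncs n sh R w (a :: b :: l) Y x < v) :=
      sum_nonneg fun x _ => mul_nonneg (hw x).le (TRE_ind_nonneg _)
    have hE : 0 < Real.exp (-(v / 60000)) := Real.exp_pos _
    have hab : a + 4 ≤ b := by
      rw [List.isChain_cons_cons] at hch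
      exact hch.1
    have hch' : List.IsChain (fun i j => i + 4 ≤ j) (b :: l) := by
      rw [List.isChain_cons_cons] at hch
      exact hch.2
    have hbn : b ≤ n := hle b (by simp)
    have hle' : ∀ i ∈ b :: l, i ≤ n := fun i hi => hle i (List.mem_cons_of_mem _ hi)
    have hnc := TRE_nc n sh R w a b Y hw
    have hpot : pot n sh ζ η R w (a :: b :: l) Y =
        max ((∑ r ∈ range (3 ^ (n + 1)), pot n sh ζ η R w (b :: l) {x ∈ Y | rc n sh b (R x) = r}
        + ‖∑ r ∈ range (3 ^ (n + 1)),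
            ((pot n sh ζ η R w (b :: l) {x ∈ Y | rc n sh b (R x) = r} : ℝ) : ℂ)
              * ph ζ (b - a) r‖) / 2)
        (η * ∑ x ∈ Y, w x) := by
      rw [pot]
    rw [hpot]
    apply max_le
    · set v' : ℝ := v - nc n sh R w a b Y with hv'
      set α : ℝ := Real.exp (-(v' / 60000)) + η with hα
      have hα0 : 0 ≤ α := by
        have := Real.exp_pos (-(v' / 60000))
        linarith
      have hI : ∀ r' ∈ range (3 ^ (n + 1)),
          pot n sh ζ η R w (b :: l) {x ∈ Y | rc n sh b (R x) = r'} ≤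
          α * (∑ x ∈ Y with rc n sh b (R x) = r', w x) +
          ∑ x ∈ Y with rc n sh b (R x) = r',
            w x * ind (ncs n sh R w (b :: l) {x ∈ Y | rc n sh b (R x) = r'} x < v') := by
        intro r' _
        have h := ih b r' {x ∈ Y | rc n sh b (R x) = r'} v' hch' hle'
          (fun x hx => (mem_filter.1 hx).2)
        rw [mul_comm] at h
        exact h
      have hF := TRE_fun (range (3 ^ (n + 1)))
        (fun r' => pot n sh ζ η R w (b :: l) {x ∈ Y | rc n sh b (R x) = r'})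
        (fun r' => ∑ x ∈ Y with rc n sh b (R x) = r', w x)
        (fun r' => ∑ x ∈ Y with rc n sh b (R x) = r',
            w x * ind (ncs n sh R w (b :: l) {x ∈ Y | rc n sh b (R x) = r'} x < v'))
        (fun r' => ph ζ (b - a) r') α hα0 (fun r' => TRE_ph _ _ _)
        (fun r' _ => sum_nonneg fun x _ => mul_nonneg (hw x).le (TRE_ind_nonneg _)) hI
      have hD := hNOD X n sh a b r ζ R w Y hab hbn hz1 hz2 hw hR hY
      have hmaps : ∀ x ∈ Y, rc n sh b (R x) ∈ range (3 ^ (n + 1)) := by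
        intro x _
        rw [mem_range]
        unfold rc
        exact lt_of_le_of_lt (Nat.div_le_self _ _) (hR x)
      have hG : ∑ r' ∈ range (3 ^ (n + 1)), ∑ x ∈ Y with rc n sh b (R x) = r',
            w x * ind (ncs n sh R w (b :: l) {x ∈ Y | rc n sh b (R x) = r'} x < v') =
          ∑ x ∈ Y, w x * ind (ncs n sh R w (a :: b :: l) Y x < v) := by
        rw [← sum_fiberwise_of_maps_to hmaps
          (fun x => w x * ind (ncs n sh R w (a :: b :: l) Y x < v))]
        refine sum_congr rfl fun r' _ => sum_congr rfl fun x hx => ?_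
        have hx' : rc n sh b (R x) = r' := (mem_filter.1 hx).2
        congr 2
        apply propext
        have h1 : ncs n sh R w (a :: b :: l) Y x = nc n sh R w a b Y +
            ncs n sh R w (b :: l) {y ∈ Y | rc n sh b (R y) = rc n sh b (R x)} x := by
          rw [ncs]
        rw [h1, hx', hv']
        constructor
        · intro h; linarith
        · intro h; linarith
      rw [hG] at hF
      refine hF.trans (add_le_add ?_ (le_refl _))
      refine (mul_le_mul_of_nonneg_left hD hα0).trans ?_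
      have h1 : α * ((∑ x ∈ Y, w x) * Real.exp (-(nc n sh R w a b Y / 60000))) =
          (∑ x ∈ Y, w x) * (Real.exp (-(v' / 60000)) * Real.exp (-(nc n sh R w a b Y / 60000)) +
            η * Real.exp (-(nc n sh R w a b Y / 60000))) := by
        rw [hα]
        ring
      rw [h1]
      refine mul_le_mul_of_nonneg_left ?_ hN
      refine add_le_add ?_ ?_
      · rw [← Real.exp_add]
        refine le_of_eq ?_
        congr 1
        rw [hv']
        ring
      · have h2 : Real.exp (-(nc n sh R w a b Y / 60000)) ≤ 1 := by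
          rw [← Real.exp_zero]
          apply Real.exp_le_exp.mpr
          have : 0 ≤ nc n sh R w a b Y / 60000 := by positivity
          linarith
        nlinarith
    · nlinarith [mul_nonneg hN hE.le]

end Pool.Agent.GA
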